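import Pool.Agent.Helper61.GT.Goals

/-!
# Project GT: the fourth moment of a signed sum
-/

set_option autoImplicit false

namespace Pool.Agent.Helper68.GT

open Pool.Agent.Helper61.GT

universe u

theorem sum_split {M : Type*} [AddCommMonoid M] {n : ℕ} (f : (Fin (n + 1) → Bool) → M) :
    ∑ e, f e = ∑ e : Fin n → Bool,
      (f (Fin.cons (α := fun _ => Bool) true e) + f (Fin.cons (α := fun _ => Bool) false e)) := by
  rw [← (Fin.consEquiv (fun _ : Fin (n + 1) => Bool)).sum_comp, Fintype.sum_prod_type,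
    Fintype.sum_bool, ← Finset.sum_add_distrib]
  rfl

section

variable {A : Type u} [CStarAlgebra A]

theorem X_cons {n : ℕ} (x : Fin (n + 1) → A) (b : Bool) (e : Fin n → Bool) :
    X x (Fin.cons (α := fun _ => Bool) b e) = sg b • x 0 + X (fun i => x i.succ) e := by
  unfold X
  rw [Fin.sum_univ_succ]
  simp

theorem X_true {n : ℕ} (x : Fin (n + 1) → A) (e : Fin n → Bool) :
    X x (Fin.cons (α := fun _ => Bool) true e) = X (fun i => x i.succ) e + x 0 := by
  rw [X_cons, add_comm]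
  simp [sg]

theorem X_false {n : ℕ} (x : Fin (n + 1) → A) (e : Fin n → Bool) :
    X x (Fin.cons (α := fun _ => Bool) false e) = X (fun i => x i.succ) e - x 0 := by
  rw [X_cons, add_comm]
  simp [sg, sub_eq_add_neg]

theorem X_sa {n : ℕ} (x : Fin n → A) (hx : ∀ i, IsSelfAdjoint (x i)) (e : Fin n → Bool) :
    IsSelfAdjoint (X x e) := by
  unfold X
  rw [isSelfAdjoint_iff, star_sum]
  refine Finset.sum_congr rfl fun i _ => ?_
  rw [star_smul, (hx i).star_eq]
  simp

/-- The quadratic moment. -/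
theorem quad {n : ℕ} (x : Fin n → A) (c : A) :
    ∑ e : Fin n → Bool, X x e * c * X x e = (2 ^ n : ℝ) • ∑ i, x i * c * x i := by
  induction n with
  | zero => simp [X]
  | succ n ih =>
    rw [sum_split, Fin.sum_univ_succ]
    have h : ∀ e : Fin n → Bool,
        X x (Fin.cons (α := fun _ => Bool) true e) * c * X x (Fin.cons (α := fun _ => Bool) true e) +
        X x (Fin.cons (α := fun _ => Bool) false e) * c *
          X x (Fin.cons (α := fun _ => Bool) false e) =
        (2 : ℝ) • (X (fun i => x i.succ) e * c * X (fun i => x i.succ) e) +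
          (2 : ℝ) • (x 0 * c * x 0) := by
      intro e
      rw [X_true, X_false]
      generalize X (fun i => x i.succ) e = y
      rw [two_smul, two_smul]
      noncomm_ring
    simp only [h]
    rw [Finset.sum_add_distrib, ← Finset.smul_sum, ih]
    simp only [Finset.sum_const, Finset.card_univ, Fintype.card_fun, Fintype.card_bool,
      Fintype.card_fin]
    rw [← Nat.cast_smul_eq_nsmul ℝ]
    push_cast
    rw [pow_succ]
    module

/-- The quartic expansion. -/
theorem quart [PartialOrder A] [StarOrderedRing A] (y a : A) (hy : IsSelfAdjoint y)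
    (ha : IsSelfAdjoint a) :
    (y + a) ^ 4 + (y - a) ^ 4 ≤ (2 : ℝ) • (y ^ 4 + a ^ 4 + (y * 1 * y) * (a * a) +
      (a * a) * (y * 1 * y) + (2 : ℝ) • (y * (a * a) * y) + (2 : ℝ) • (a * (y * 1 * y) * a)) := by
  have h1 : 0 ≤ (y * a - a * y) * star (y * a - a * y) := mul_star_self_nonneg _
  rw [star_sub, star_mul, star_mul, hy.star_eq, ha.star_eq] at h1
  rw [← sub_nonneg]
  have h2 : (2 : ℝ) • (y ^ 4 + a ^ 4 + (y * 1 * y) * (a * a) +
      (a * a) * (y * 1 * y) + (2 : ℝ) • (y * (a * a) * y) + (2 : ℝ) • (a * (y * 1 * y) * a)) -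
      ((y + a) ^ 4 + (y - a) ^ 4) = (2 : ℝ) • ((y * a - a * y) * (a * y - y * a)) := by
    simp only [two_smul]
    noncomm_ring
  rw [h2]
  exact smul_nonneg (by norm_num) h1

end

/-- (M4) -/
theorem gM4 : Pool.Agent.Helper61.GT.G_M4.{u} := by
  intro A _ _ _ n x hx
  induction n with
  | zero => simp [X]
  | succ n ih =>
    obtain ⟨a, ha⟩ : ∃ a : A, a = x 0 := ⟨_, rfl⟩
    obtain ⟨y, hy⟩ : ∃ y : Fin n → A, y = fun i => x i.succ := ⟨_, rfl⟩
    have hys : ∀ i, IsSelfAdjoint (y i) := fun i => by rw [hy]; exact hx _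
    have has : IsSelfAdjoint a := by rw [ha]; exact hx _
    have hih := ih y hys
    rw [sum_split]
    have s1 : ∑ e : Fin n → Bool, (X x (Fin.cons (α := fun _ => Bool) true e) ^ 4 +
        X x (Fin.cons (α := fun _ => Bool) false e) ^ 4) ≤
        ∑ e : Fin n → Bool, (2 : ℝ) • (X y e ^ 4 + a ^ 4 + (X y e * 1 * X y e) * (a * a) +
      (a * a) * (X y e * 1 * X y e) + (2 : ℝ) • (X y e * (a * a) * X y e) +
      (2 : ℝ) • (a * (X y e * 1 * X y e) * a)) := by
      refine Finset.sum_le_sum fun e _ => ?_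
      rw [X_true, X_false, ← hy, ← ha]
      exact quart _ _ (X_sa y hys e) has
    refine s1.trans ?_
    rw [← Finset.smul_sum]
    simp only [Finset.sum_add_distrib, ← Finset.sum_mul, ← Finset.mul_sum, ← Finset.smul_sum,
      quad, Finset.sum_const, Finset.card_univ, Fintype.card_fun, Fintype.card_bool,
      Fintype.card_fin]
    rw [← Nat.cast_smul_eq_nsmul ℝ]
    push_cast
    have hpos : 0 ≤ a ^ 4 := by
      have : a ^ 4 = (a * a) * star (a * a) := by
        rw [star_mul, has.star_eq]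
        noncomm_ring
      rw [this]
      exact mul_star_self_nonneg _
    rw [Fin.sum_univ_succ, Fin.sum_univ_succ]
    have e1 : ∀ i : Fin n, x i.succ = y i := fun i => by rw [hy]
    simp only [mul_one, e1, ← ha]
    have e2 : ∑ i, y i * (a * a + ∑ j, y j * y j) * y i =
        ∑ i, y i * (a * a) * y i + ∑ i, y i * (∑ j, y j * y j) * y i := by
      rw [← Finset.sum_add_distrib]
      refine Finset.sum_congr rfl fun i _ => ?_
      rw [mul_add, add_mul]
    rw [e2]
    obtain ⟨s, hs⟩ : ∃ s : A, s = ∑ i, y i * y i := ⟨_, rfl⟩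
    obtain ⟨q, hq⟩ : ∃ q : A, q = ∑ i, y i * (a * a) * y i := ⟨_, rfl⟩
    obtain ⟨w, hw⟩ : ∃ w : A, w = ∑ i, y i * (∑ j, y j * y j) * y i := ⟨_, rfl⟩
    obtain ⟨f, hf⟩ : ∃ f : A, f = ∑ e, X y e ^ 4 := ⟨_, rfl⟩
    rw [← hw, ← hs, ← hf] at hih
    rw [← hw, ← hs, ← hf, ← hq]
    have k1 : (2 : ℝ) • f ≤ (2 : ℝ) • ((2 ^ n : ℝ) • (s * s + (2 : ℝ) • w)) :=
      smul_le_smul_of_nonneg_left hih (by norm_num)
    have k2 : 0 ≤ (2 : ℝ) • ((2 ^ n : ℝ) • ((2 : ℝ) • a ^ 4)) := by positivity
    rw [← sub_nonneg] at k1 ⊢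
    have k3 := add_nonneg k1 k2
    refine k3.trans (le_of_eq ?_)
    simp only [mul_add, add_mul, smul_mul_assoc, mul_smul_comm, ← mul_assoc]
    have k4 : a ^ 4 = a * a * a * a := by noncomm_ring
    rw [k4, pow_succ]
    module

end Pool.Agent.Helper68.GT
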